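import Pool.Agent.Lib.MP_7511ee_lc.Lower

/-!
Baire space has no degree of topological categoricity.
-/

namespace Pool.Agent.Results.MP_7511ee_lc.NoDegree

open Pool.Agent.Shared.Type2 Pool.Agent.Lib.MP_7511ee_lc

theorem result (strict : Bool) :
    (∃ α : ℕ → ℕ, BaireCategorical strict α) ∧
      ¬ ∃ α : ℕ → ℕ, BaireCategorical strict α ∧ ∀ β : ℕ → ℕ, BaireCategorical strict β →
        TuringReducible (α : ℕ →. ℕ) (β : ℕ →. ℕ) := by
  obtain ⟨y, hy⟩ := countable_sing.exists_eq_range exists_sing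
  have h1 : ∀ z, Sing z ↔ ∃ i, y i = z := fun z => Set.ext_iff.1 hy z
  constructor
  · refine ⟨fun n => y n.unpair.1 n.unpair.2, categorical_iff.2 fun z hz => ?_⟩
    obtain ⟨i, rfl⟩ := (h1 z).1 hz
    have : TD fun w : B => lam fun n => ap w (Nat.pair i n) := by fun_prop
    simpa using this.red fun n => y n.unpair.1 n.unpair.2
  · rintro ⟨α, hα, H⟩
    obtain ⟨β, h2, h3⟩ := exists_avoid (J := {f | ∃ z, Sing z ∧ Red f z}) (α := α) (y := y)
      (fun f g h ⟨z, h1, h2⟩ => ⟨z, h1, h.trans h2⟩)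
      (fun f ⟨z, h1, h2⟩ g ⟨z', h1', h2'⟩ => ⟨jn z z', h1.jn h1',
        (h2.trans (red_jn_left _ _)).jn (h2'.trans (red_jn_right _ _))⟩)
      (fun ⟨z, h1, h2⟩ => by
        obtain ⟨z', h3, h4⟩ := h1.exists_not_red
        exact h4 ((lower hα h3).trans h2))
      fun i => ⟨y i, (h1 _).2 ⟨i, rfl⟩, Red.refl _⟩
    refine h3 (H β (categorical_iff.2 fun z hz => ?_))
    obtain ⟨i, rfl⟩ := (h1 z).1 hz
    exact h2 i

end Pool.Agent.Results.MP_7511ee_lc.NoDegree
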