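import Pool.Agent.Lib.MP_7511ee_lc.Spec

/-!
The categoricity spectrum of Baire space and of its products with connected spaces.
-/

namespace Pool.Agent.Results.MP_7511ee_lc.Spectrum

open Pool.Agent.Shared.Type2 Pool.Agent.Lib.MP_7511ee_lc

theorem result (strict : Bool) (Y : CMS) [ConnectedSpace Y.X] (α : ℕ → ℕ) :
    List.TFAE [Categorical strict (ℕ → ℕ) α,
      Categorical strict (Y.X × (ℕ → ℕ)) α,
      ∀ A : Set ℕ, Delta12 A →
        TuringReducible ((A.indicator fun _ => 1 : ℕ → ℕ) : ℕ →. ℕ) (α : ℕ →. ℕ),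
      AllCategorical α] := by
  tfae_have 1 → 3 := fun h => sing_iff_delta12.1 (categorical_iff (strict := strict).1 h)
  tfae_have 2 → 3 := fun h => sing_iff_delta12.1 fun _ hy => lower_prod Y h hy
  tfae_have 3 → 4 := fun h M N ⟨e⟩ => upper (sing_iff_delta12.2 h) M N e
  tfae_have 4 → 1 := fun h M N _ ⟨e⟩ ⟨e'⟩ => h M N ⟨e.trans e'.symm⟩
  tfae_have 4 → 2 := fun h M N _ ⟨e⟩ ⟨e'⟩ => h M N ⟨e.trans e'.symm⟩
  tfae_finish

end Pool.Agent.Results.MP_7511ee_lc.Spectrum
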